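import Pool.Agent.H211.HY.Stm2
import Pool.Graph.R_seed8.H790R3.RB.TPQ
import Pool.Graph.R_seed8.H790R3.RB.TWR

/-!
# Project HY (helper211), task ALG (helper335): the algebraic end
-/

set_option autoImplicit false

namespace Pool.Agent.H335.HY211

section Part1

open Polynomial

open Pool.Agent.H211.HY

/-- the form `A` of degree `n`, evaluated at `P, Q` -/
noncomputable def hm (A P Q : ℂ[X]) (n : ℕ) : ℂ[X] :=
  ∑ j ∈ Finset.range (n + 1), C (A.coeff j) * (P ^ j * Q ^ (n - j))

theorem hm_eval (A P Q : ℂ[X]) (n : ℕ) (hn : A.natDegree ≤ n) (w : ℂ) (hQ : Q.eval w ≠ 0) :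
    (hm A P Q n).eval w = A.eval (P.eval w / Q.eval w) * Q.eval w ^ n := by
  unfold hm
  rw [eval_finsetSum, eval_eq_sum_range' (Nat.lt_succ_of_le hn), Finset.sum_mul]
  refine Finset.sum_congr rfl fun j hj => ?_
  have hj' : j ≤ n := Nat.lt_succ_iff.1 (Finset.mem_range.1 hj)
  rw [eval_mul, eval_C, eval_mul, eval_pow, eval_pow, div_pow, mul_assoc]
  congr 1
  have h : Q.eval w ^ n = Q.eval w ^ j * Q.eval w ^ (n - j) := by
    rw [← pow_add, Nat.add_sub_cancel' hj']
  rw [h]
  field_simp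

theorem hm_eval0 (A P Q : ℂ[X]) (n : ℕ) (w : ℂ) (hQ : Q.eval w = 0) :
    (hm A P Q n).eval w = A.coeff n * P.eval w ^ n := by
  unfold hm
  rw [eval_finsetSum, Finset.sum_eq_single_of_mem n (Finset.mem_range.2 (Nat.lt_succ_self n))]
  · rw [eval_mul, eval_C, eval_mul, eval_pow, eval_pow, Nat.sub_self, pow_zero, mul_one]
  · intro j hj hjn
    have hj' : j < n := lt_of_le_of_ne (Nat.lt_succ_iff.1 (Finset.mem_range.1 hj)) hjn
    rw [eval_mul, eval_C, eval_mul, eval_pow, eval_pow, hQ, zero_pow (Nat.sub_ne_zero_of_lt hj'),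
      mul_zero, mul_zero]

theorem hm_deg (A P Q : ℂ[X]) (n d : ℕ) (hP : P.natDegree ≤ d) (hQ : Q.natDegree ≤ d) :
    (hm A P Q n).natDegree ≤ n * d := by
  unfold hm
  apply natDegree_sum_le_of_forall_le
  intro j hj
  have hj' : j ≤ n := Nat.lt_succ_iff.1 (Finset.mem_range.1 hj)
  refine (natDegree_C_mul_le _ _).trans ?_
  refine natDegree_mul_le.trans ?_
  have h1 : (P ^ j).natDegree ≤ j * d := natDegree_pow_le_of_le j hP
  have h2 : (Q ^ (n - j)).natDegree ≤ (n - j) * d := natDegree_pow_le_of_le _ hQ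
  calc (P ^ j).natDegree + (Q ^ (n - j)).natDegree ≤ j * d + (n - j) * d := Nat.add_le_add h1 h2
    _ = n * d := by rw [← Nat.add_mul, Nat.add_sub_cancel' hj']

theorem hm_coeff (A P Q : ℂ[X]) (n d : ℕ) (hP : P.natDegree ≤ d) (hQ : Q.natDegree ≤ d) :
    (hm A P Q n).coeff (n * d) =
      ∑ j ∈ Finset.range (n + 1), A.coeff j * (P.coeff d ^ j * Q.coeff d ^ (n - j)) := by
  unfold hm
  rw [finsetSum_coeff]
  refine Finset.sum_congr rfl fun j hj => ?_
  have hj' : j ≤ n := Nat.lt_succ_iff.1 (Finset.mem_range.1 hj)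
  rw [coeff_C_mul]
  congr 1
  have h : n * d = j * d + (n - j) * d := by rw [← Nat.add_mul, Nat.add_sub_cancel' hj']
  rw [h, coeff_mul_add_eq_of_natDegree_le (natDegree_pow_le_of_le j hP) (natDegree_pow_le_of_le _ hQ),
    coeff_pow_of_natDegree_le hP, coeff_pow_of_natDegree_le hQ]

theorem hm_coeff0 (A P Q : ℂ[X]) (n d : ℕ) (hP : P.natDegree ≤ d) (hQ : Q.natDegree ≤ d)
    (h0 : Q.coeff d = 0) : (hm A P Q n).coeff (n * d) = A.coeff n * P.coeff d ^ n := by
  rw [hm_coeff A P Q n d hP hQ,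
    Finset.sum_eq_single_of_mem n (Finset.mem_range.2 (Nat.lt_succ_self n))]
  · rw [Nat.sub_self, pow_zero, mul_one]
  · intro j hj hjn
    have hj' : j < n := lt_of_le_of_ne (Nat.lt_succ_iff.1 (Finset.mem_range.1 hj)) hjn
    rw [h0, zero_pow (Nat.sub_ne_zero_of_lt hj'), mul_zero, mul_zero]

theorem hm_coeff1 (A P Q : ℂ[X]) (n d : ℕ) (hn : A.natDegree ≤ n) (hP : P.natDegree ≤ d)
    (hQ : Q.natDegree ≤ d) (h0 : Q.coeff d ≠ 0) :
    (hm A P Q n).coeff (n * d) = A.eval (P.coeff d / Q.coeff d) * Q.coeff d ^ n := by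
  rw [hm_coeff A P Q n d hP hQ, eval_eq_sum_range' (Nat.lt_succ_of_le hn), Finset.sum_mul]
  refine Finset.sum_congr rfl fun j hj => ?_
  have hj' : j ≤ n := Nat.lt_succ_iff.1 (Finset.mem_range.1 hj)
  rw [div_pow, mul_assoc]
  congr 1
  have h : Q.coeff d ^ n = Q.coeff d ^ j * Q.coeff d ^ (n - j) := by
    rw [← pow_add, Nat.add_sub_cancel' hj']
  rw [h]
  field_simp

theorem cop_iff (P Q : ℂ[X]) : IsCoprime P Q ↔ ∀ w : ℂ, P.eval w ≠ 0 ∨ Q.eval w ≠ 0 := by
  rw [isCoprime_iff_aeval_ne_zero_of_isAlgClosed ℂ ℂ]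
  simp only [coe_aeval_eq_eval]

theorem hm_cop (A P Q : ℂ[X]) (hA : A ≠ 0) (h : IsCoprime P Q) :
    IsCoprime (hm A P Q A.natDegree) Q := by
  rw [cop_iff] at h ⊢
  intro w
  by_cases hQ : Q.eval w = 0
  · left
    rw [hm_eval0 A P Q _ w hQ]
    refine mul_ne_zero ?_ (pow_ne_zero _ ((h w).resolve_right (fun h' => h' hQ)))
    rw [coeff_natDegree]
    exact leadingCoeff_ne_zero.2 hA
  · exact Or.inr hQ

theorem hm_cop2 (A B P Q : ℂ[X]) (hA : A ≠ 0) (h : IsCoprime P Q) (hAB : IsCoprime A B) :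
    IsCoprime (hm A P Q A.natDegree) (hm B P Q B.natDegree) := by
  have h1 := hm_cop A P Q hA h
  rw [cop_iff] at h1 hAB ⊢
  intro w
  by_cases hQ : Q.eval w = 0
  · exact Or.inl ((h1 w).resolve_right (fun h' => h' hQ))
  · rw [hm_eval A P Q _ le_rfl w hQ, hm_eval B P Q _ le_rfl w hQ]
    rcases hAB (P.eval w / Q.eval w) with h2 | h2
    · exact Or.inl (mul_ne_zero h2 (pow_ne_zero _ hQ))
    · exact Or.inr (mul_ne_zero h2 (pow_ne_zero _ hQ))

theorem key (P Q A B : ℂ[X]) (d k : ℕ) (hd : 2 ≤ d) (hPQ : IsCoprime P Q)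
    (hdeg : max P.natDegree Q.natDegree = d) (hW : (Wp P Q).natDegree ≤ 2 * d - 2)
    (hAB : IsCoprime A B) (hA : A ≠ 0) (hk : B.natDegree = A.natDegree + 3 + k) (c : ℂ)
    (hc : c ≠ 0) (h : C c * (A * Q * hm B P Q B.natDegree) =
      Wp P Q ^ 2 * Q ^ k * hm A P Q A.natDegree * B) : A.natDegree = 0 ∧ k ≤ 1 := by
  have hB : B ≠ 0 := by
    rintro rfl
    rw [natDegree_zero] at hk
    omega
  have hPd : P.natDegree ≤ d := by rw [← hdeg]; exact le_max_left _ _
  have hQd : Q.natDegree ≤ d := by rw [← hdeg]; exact le_max_right _ _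
  have hQ : Q ≠ 0 := by
    rintro rfl
    have h1 : IsUnit P := isCoprime_zero_right.1 hPQ
    have h2 : P.natDegree = 0 := natDegree_eq_zero_of_isUnit h1
    rw [h2, natDegree_zero, max_self] at hdeg
    omega
  set α := A.natDegree with hα
  set β := B.natDegree with hβ
  set A₁ := hm A P Q α with hA₁
  set B₁ := hm B P Q β with hB₁
  set W := Wp P Q with hWdef
  have cA : IsCoprime A₁ Q := hm_cop A P Q hA hPQ
  have cB : IsCoprime B₁ Q := hm_cop B P Q hB hPQ
  have cAB : IsCoprime A₁ B₁ := hm_cop2 A B P Q hA hPQ hAB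
  have hu : IsUnit (C c : ℂ[X]) := isUnit_C.2 (isUnit_iff_ne_zero.2 hc)
  -- divisibility
  have d1 : A₁ ∣ A := by
    have h1 : A₁ ∣ C c * A * Q * B₁ := by
      refine ⟨W ^ 2 * Q ^ k * B, ?_⟩
      calc C c * A * Q * B₁ = C c * (A * Q * B₁) := by ring
        _ = A₁ * (W ^ 2 * Q ^ k * B) := by rw [h]; ring
    have h2 := cA.dvd_of_dvd_mul_right (cAB.dvd_of_dvd_mul_right h1)
    exact (hu.dvd_mul_left).1 h2
  have d2 : ∀ m, k = m + 1 → Q ^ m * A₁ ∣ A := by
    intro m hm'
    have h1 : Q ^ m * A₁ ∣ C c * A * B₁ := by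
      refine ⟨W ^ 2 * B, ?_⟩
      apply mul_left_cancel₀ hQ
      calc Q * (C c * A * B₁) = C c * (A * Q * B₁) := by ring
        _ = Q * (Q ^ m * A₁ * (W ^ 2 * B)) := by rw [h, hm']; ring
    have h2 : IsCoprime (Q ^ m * A₁) B₁ := IsCoprime.mul_left (IsCoprime.pow_left cB.symm) cAB
    exact (hu.dvd_mul_left).1 (h2.dvd_of_dvd_mul_right h1)
  have A₁0 : A₁ ≠ 0 := fun h0 => hA (zero_dvd_iff.1 (h0 ▸ d1))
  have e1 : A₁.natDegree ≤ α := natDegree_le_of_dvd d1 hA
  have e2 : ∀ m, k = m + 1 → m * Q.natDegree + A₁.natDegree ≤ α := by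
    intro m hm'
    have h1 := natDegree_le_of_dvd (d2 m hm') hA
    rwa [natDegree_mul (pow_ne_zero _ hQ) A₁0, natDegree_pow] at h1
  have e3 : B₁ ≠ 0 → α + Q.natDegree + B₁.natDegree =
      2 * W.natDegree + k * Q.natDegree + A₁.natDegree + β := by
    intro B₁0
    have hl : C c * (A * Q * B₁) ≠ 0 :=
      mul_ne_zero hu.ne_zero (mul_ne_zero (mul_ne_zero hA hQ) B₁0)
    have hr : W ^ 2 * Q ^ k * A₁ * B ≠ 0 := by rw [← h]; exact hl
    have hW0 : W ≠ 0 := by
      intro h0
      apply hr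
      rw [h0]
      ring
    have h1 := congrArg natDegree h
    rw [natDegree_C_mul hc, natDegree_mul (mul_ne_zero hA hQ) B₁0, natDegree_mul hA hQ,
      natDegree_mul (mul_ne_zero (mul_ne_zero (pow_ne_zero _ hW0) (pow_ne_zero _ hQ)) A₁0) hB,
      natDegree_mul (mul_ne_zero (pow_ne_zero _ hW0) (pow_ne_zero _ hQ)) A₁0,
      natDegree_mul (pow_ne_zero _ hW0) (pow_ne_zero _ hQ), natDegree_pow, natDegree_pow] at h1
    exact h1
  by_cases hQc : Q.coeff d = 0
  · -- infinity is fixed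
    have hPc : P.coeff d ≠ 0 := by
      intro h0
      rcases max_choice P.natDegree Q.natDegree with h1 | h1
      · rw [hdeg] at h1
        have h2 : P.leadingCoeff = 0 := by rw [leadingCoeff, ← h1, h0]
        rw [leadingCoeff_eq_zero] at h2
        rw [h2, natDegree_zero] at h1
        omega
      · rw [hdeg] at h1
        have h2 : Q.leadingCoeff = 0 := by rw [leadingCoeff, ← h1, hQc]
        exact hQ (leadingCoeff_eq_zero.1 h2)
    have hA1 : A₁.natDegree = α * d := by
      apply le_antisymm (hm_deg A P Q α d hPd hQd)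
      apply le_natDegree_of_ne_zero
      rw [hm_coeff0 A P Q α d hPd hQd hQc]
      refine mul_ne_zero ?_ (pow_ne_zero _ hPc)
      rw [hα, coeff_natDegree]
      exact leadingCoeff_ne_zero.2 hA
    have hB1c : B₁.coeff (β * d) ≠ 0 := by
      rw [hm_coeff0 B P Q β d hPd hQd hQc]
      refine mul_ne_zero ?_ (pow_ne_zero _ hPc)
      rw [hβ, coeff_natDegree]
      exact leadingCoeff_ne_zero.2 hB
    have hB1 : B₁.natDegree = β * d :=
      le_antisymm (hm_deg B P Q β d hPd hQd) (le_natDegree_of_ne_zero hB1c)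
    have hα0 : α = 0 := by
      rw [hA1] at e1
      by_contra h0
      have : 0 < α := Nat.pos_of_ne_zero h0
      nlinarith
    refine ⟨hα0, ?_⟩
    by_contra hk1
    obtain ⟨m, hm'⟩ : ∃ m, k = m + 1 := ⟨k - 1, by omega⟩
    have h1 := e2 m hm'
    have hQ0 : Q.natDegree = 0 := by
      have h2 : m * Q.natDegree ≤ 0 := by omega
      have h3 : m ≠ 0 := by omega
      rcases Nat.mul_eq_zero.1 (Nat.le_zero.1 h2) with h4 | h4
      · exact absurd h4 h3
      · exact h4
    have B₁0 : B₁ ≠ 0 := by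
      intro h0
      apply hB1c
      rw [h0, coeff_zero]
    have h2 := e3 B₁0
    have h3 : W.natDegree ≤ d - 1 := by
      have h4 : W = derivative P * Q := by
        rw [hWdef, Wp, derivative_of_natDegree_zero hQ0, mul_zero, sub_zero]
      rw [h4]
      refine natDegree_mul_le.trans ?_
      have h5 := natDegree_derivative_le P
      omega
    rw [hQ0, hB1, hA1, hα0, hk, hα0] at h2
    have h6 : (0 + 3 + k) * (d - 1) ≤ 2 * (d - 1) := by
      obtain ⟨e, rfl⟩ : ∃ e, d = e + 1 := ⟨d - 1, by omega⟩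
      simp only [Nat.add_sub_cancel] at h3 ⊢
      nlinarith
    have h7 : 0 < d - 1 := by omega
    have h8 := Nat.le_of_mul_le_mul_right h6 h7
    omega
  · -- infinity is mapped to a finite point
    have hQn : Q.natDegree = d := le_antisymm hQd (le_natDegree_of_ne_zero hQc)
    by_cases hv : A.eval (P.coeff d / Q.coeff d) = 0
    · exfalso
      have hBv : B.eval (P.coeff d / Q.coeff d) ≠ 0 :=
        ((cop_iff A B).1 hAB _).resolve_left (fun h' => h' hv)
      have hB1c : B₁.coeff (β * d) ≠ 0 := by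
        rw [hm_coeff1 B P Q β d le_rfl hPd hQd hQc]
        exact mul_ne_zero hBv (pow_ne_zero _ hQc)
      have hB1 : B₁.natDegree = β * d :=
        le_antisymm (hm_deg B P Q β d hPd hQd) (le_natDegree_of_ne_zero hB1c)
      have B₁0 : B₁ ≠ 0 := by
        intro h0
        apply hB1c
        rw [h0, coeff_zero]
      have h2 := e3 B₁0
      have h3 : A₁.natDegree ≤ α * d := hm_deg A P Q α d hPd hQd
      rw [hQn, hB1, hk] at h2
      obtain ⟨e, rfl⟩ : ∃ e, d = e + 2 := ⟨d - 2, by omega⟩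
      have hW' : W.natDegree ≤ 2 * e + 2 := by omega
      have hαp : α ≠ 0 := by
        intro h0
        have h4 : A = C (A.coeff 0) := eq_C_of_natDegree_eq_zero h0
        rw [h4, eval_C] at hv
        rw [hv, C_0] at h4
        exact hA h4
      rcases Nat.eq_zero_or_pos k with h0 | h0
      · rw [h0] at h2
        nlinarith
      · obtain ⟨m, hm'⟩ : ∃ m, k = m + 1 := ⟨k - 1, by omega⟩
        have h4 := e2 m hm'
        rw [hQn] at h4
        rw [hm'] at h2
        have h5 : 0 < α := Nat.pos_of_ne_zero hαp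
        nlinarith
    · have hA1 : A₁.natDegree = α * d := by
        apply le_antisymm (hm_deg A P Q α d hPd hQd)
        apply le_natDegree_of_ne_zero
        rw [hm_coeff1 A P Q α d le_rfl hPd hQd hQc]
        exact mul_ne_zero hv (pow_ne_zero _ hQc)
      have hα0 : α = 0 := by
        rw [hA1] at e1
        by_contra h0
        have : 0 < α := Nat.pos_of_ne_zero h0
        nlinarith
      refine ⟨hα0, ?_⟩
      by_contra hk1
      obtain ⟨m, hm'⟩ : ∃ m, k = m + 1 := ⟨k - 1, by omega⟩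
      have h1 := e2 m hm'
      rw [hQn, hα0] at h1
      have h2 : m ≠ 0 := by omega
      have h3 : 0 < m * d := Nat.mul_pos (Nat.pos_of_ne_zero h2) (by omega)
      omega

end Part1

section Part2

open Polynomial

open Pool.Agent.H211.HY Pool.Agent.H790R3.RB

theorem SU_pol {d : ℕ} (x : CV d) (i : Fin 2) (w : ℂ) :
    WR.SU (fun j => x (i, j)) (w, 1) = (derivative (pol x i)).eval w := by
  unfold WR.SU pol
  rw [derivative_sum, eval_finsetSum]
  refine Finset.sum_congr rfl fun j _ => ?_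
  rw [derivative_monomial, eval_monomial]
  simp only [one_pow]
  ring

theorem SV_pol {d : ℕ} (x : CV d) (i : Fin 2) (w : ℂ) :
    WR.SV (fun j => x (i, j)) (w, 1) =
      (d : ℂ) * (pol x i).eval w - w * (derivative (pol x i)).eval w := by
  rw [← SU_pol]
  unfold WR.SU WR.SV pol
  rw [eval_finsetSum, Finset.mul_sum, Finset.mul_sum, ← Finset.sum_sub_distrib]
  refine Finset.sum_congr rfl fun j _ => ?_
  rw [eval_monomial]
  simp only [one_pow]
  rw [Nat.cast_sub (Nat.lt_succ_iff.1 j.2)]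
  rcases Nat.eq_zero_or_pos (j : ℕ) with h | h
  · rw [h]
    simp only [Nat.cast_zero, pow_zero]
    ring
  · obtain ⟨m, hm'⟩ : ∃ m, (j : ℕ) = m + 1 := ⟨(j : ℕ) - 1, by omega⟩
    rw [hm', Nat.add_sub_cancel, pow_succ]
    ring

theorem wr_one {d : ℕ} (x : CV d) (w : ℂ) :
    wr x (w, 1) = (d : ℂ) * (Wp (pol x 0) (pol x 1)).eval w := by
  rw [WR.wr_eq, SU_pol, SU_pol, SV_pol, SV_pol, Wp, eval_sub, eval_mul, eval_mul]
  ring

theorem Wp_deg {d : ℕ} (x : CV d) (hd : 2 ≤ d) :
    (Wp (pol x 0) (pol x 1)).natDegree ≤ 2 * d - 2 := by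
  obtain ⟨W, h1, h2, -⟩ := (WR d x hd).2.1
  have hd0 : (d : ℂ) ≠ 0 := Nat.cast_ne_zero.2 (by omega)
  have h3 : W = C (d : ℂ) * Wp (pol x 0) (pol x 1) := by
    apply Polynomial.funext
    intro w
    rw [h2, wr_one, eval_mul, eval_C]
  rw [h3, natDegree_C_mul hd0] at h1
  exact h1

theorem quar_smul (r : Fin 5 → ℂ) (a : ℂ) (p : ℂ × ℂ) : quar r (a • p) = a ^ 4 * quar r p := by
  unfold quar
  simp only [Fin.sum_univ_five, Prod.smul_fst, Prod.smul_snd, smul_eq_mul]
  norm_num [Fin.val_ofNat]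
  ring

theorem quar_cont (r : Fin 5 → ℂ) : Continuous (quar r) := by
  unfold quar
  fun_prop

theorem hF_cont {d : ℕ} (x : CV d) : Continuous (hF x) := by
  unfold hF
  fun_prop

theorem wr_cont {d : ℕ} (x : CV d) : Continuous (wr x) := by
  unfold wr
  fun_prop

/-- the quartic form of a polynomial of degree at most four -/
theorem quar_eval (B : ℂ[X]) (u v : ℂ) :
    quar (fun j => B.coeff (j : ℕ)) (u, v) =
      ∑ j ∈ Finset.range 5, B.coeff j * (u ^ j * v ^ (4 - j)) := by
  unfold quar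
  rw [Finset.sum_range]

theorem lat_of {d : ℕ} (x : CV d) (hd : 2 ≤ d) (B : ℂ[X]) (hB : B ≠ 0) (k : ℕ)
    (hk : B.natDegree = 3 + k) (hk1 : k ≤ 1) (hQ : pol x 1 ≠ 0)
    (h : C (d : ℂ) * (pol x 1 * hm B (pol x 0) (pol x 1) B.natDegree) =
      Wp (pol x 0) (pol x 1) ^ 2 * pol x 1 ^ k * B) : Lat x := by
  have hB4 : B.natDegree ≤ 4 := by omega
  refine ⟨fun j => B.coeff (j : ℕ), ?_, ?_⟩
  · intro h0
    apply hB
    rw [← leadingCoeff_eq_zero, leadingCoeff]
    exact congrFun h0 ⟨B.natDegree, by omega⟩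
  · have hp4 : ∀ w : ℂ, (d : ℂ) * (hm B (pol x 0) (pol x 1) 4).eval w =
        (Wp (pol x 0) (pol x 1)).eval w ^ 2 * B.eval w := by
      have h1 : C (d : ℂ) * hm B (pol x 0) (pol x 1) 4 = Wp (pol x 0) (pol x 1) ^ 2 * B := by
        rcases Nat.le_one_iff_eq_zero_or_eq_one.1 hk1 with h0 | h0
        · have h2 : hm B (pol x 0) (pol x 1) 4 = pol x 1 * hm B (pol x 0) (pol x 1) 3 := by
            unfold hm
            rw [Finset.sum_range_succ _ 4, Finset.mul_sum]
            have h3 : B.coeff 4 = 0 := coeff_eq_zero_of_natDegree_lt (by omega)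
            rw [h3, C_0, zero_mul, add_zero]
            refine Finset.sum_congr rfl fun j hj => ?_
            have hj' : j ≤ 3 := Nat.lt_succ_iff.1 (Finset.mem_range.1 hj)
            have h4 : 4 - j = (3 - j) + 1 := by omega
            rw [h4, pow_succ]
            ring
          rw [hk, h0, Nat.add_zero] at h
          rw [h2, h, pow_zero, mul_one]
        · apply mul_left_cancel₀ hQ
          rw [hk, h0] at h
          calc pol x 1 * (C (d : ℂ) * hm B (pol x 0) (pol x 1) 4) =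
              C (d : ℂ) * (pol x 1 * hm B (pol x 0) (pol x 1) (3 + 1)) := by ring
            _ = pol x 1 * (Wp (pol x 0) (pol x 1) ^ 2 * B) := by rw [h]; ring
      intro w
      have h2 := congrArg (fun p : ℂ[X] => p.eval w) h1
      simp only [eval_mul, eval_C, eval_pow] at h2
      exact h2
    have hone : ∀ w : ℂ, quar (fun j => B.coeff (j : ℕ)) (w, 1) * wr x (w, 1) ^ 2 =
        (d : ℂ) ^ 3 * quar (fun j => B.coeff (j : ℕ)) (hF x (w, 1)) := by
      intro w
      rw [PQ.hF_one, wr_one, quar_eval, quar_eval]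
      have h1 : ∑ j ∈ Finset.range 5, B.coeff j * (w ^ j * 1 ^ (4 - j)) = B.eval w := by
        rw [eval_eq_sum_range' (n := 5) (by omega)]
        refine Finset.sum_congr rfl fun j _ => ?_
        rw [one_pow, mul_one]
      have h2 : ∑ j ∈ Finset.range 5, B.coeff j * ((pol x 0).eval w ^ j * (pol x 1).eval w ^ (4 - j))
          = (hm B (pol x 0) (pol x 1) 4).eval w := by
        unfold hm
        rw [eval_finsetSum]
        refine Finset.sum_congr rfl fun j _ => ?_
        rw [eval_mul, eval_C, eval_mul, eval_pow, eval_pow]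
      rw [h1, h2]
      calc B.eval w * ((d : ℂ) * (Wp (pol x 0) (pol x 1)).eval w) ^ 2 =
          (d : ℂ) ^ 2 * ((Wp (pol x 0) (pol x 1)).eval w ^ 2 * B.eval w) := by ring
        _ = _ := by rw [← hp4 w]; ring
    have hgen : ∀ p ∈ (Set.univ : Set ℂ) ×ˢ ({0}ᶜ : Set ℂ),
        quar (fun j => B.coeff (j : ℕ)) p * wr x p ^ 2 =
        (d : ℂ) ^ 3 * quar (fun j => B.coeff (j : ℕ)) (hF x p) := by
      rintro ⟨u, v⟩ ⟨-, hv⟩
      have hv0 : v ≠ 0 := hv
      have h1 : ((u, v) : ℂ × ℂ) = v • ((u / v, 1) : ℂ × ℂ) := by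
        rw [Prod.smul_mk, smul_eq_mul, smul_eq_mul, mul_one, mul_div_cancel₀ _ hv0]
      rw [h1, quar_smul, (WR d x hd).1, hF_smul, quar_smul, mul_pow]
      have h2 : v ^ 4 * (v ^ (2 * d - 2)) ^ 2 = (v ^ d) ^ 4 := by
        rw [← pow_mul, ← pow_mul, ← pow_add]
        congr 1
        omega
      calc v ^ 4 * quar (fun j => B.coeff (j : ℕ)) (u / v, 1) *
            ((v ^ (2 * d - 2)) ^ 2 * wr x (u / v, 1) ^ 2) =
          (v ^ 4 * (v ^ (2 * d - 2)) ^ 2) *
            (quar (fun j => B.coeff (j : ℕ)) (u / v, 1) * wr x (u / v, 1) ^ 2) := by ring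
        _ = _ := by rw [h2, hone]; ring
    have hdense : Dense ((Set.univ : Set ℂ) ×ˢ ({0}ᶜ : Set ℂ)) :=
      dense_univ.prod (dense_compl_singleton 0)
    have hc1 : Continuous fun p : ℂ × ℂ => quar (fun j => B.coeff (j : ℕ)) p * wr x p ^ 2 :=
      (quar_cont _).mul ((wr_cont x).pow 2)
    have hc2 : Continuous fun p : ℂ × ℂ =>
        (d : ℂ) ^ 3 * quar (fun j => B.coeff (j : ℕ)) (hF x p) :=
      continuous_const.mul ((quar_cont _).comp (hF_cont x))
    exact fun p => congrFun (Continuous.ext_on hdense hc1 hc2 hgen) p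

end Part2

section Part3

open Topology Filter Metric Set MeasureTheory Polynomial

open Pool.Agent.H211.HY Pool.Agent.H790R3.RB

theorem ae_eval (p : ℂ[X]) (hp : p ≠ 0) : ∀ᵐ w : ℂ, p.eval w ≠ 0 := by
  rw [ae_iff]
  have h : {w : ℂ | ¬ p.eval w ≠ 0} = ((p.roots.toFinset : Finset ℂ) : Set ℂ) := by
    ext w
    simp [hp, IsRoot]
  rw [h]
  exact (Finset.finite_toSet _).measure_zero _

theorem const_of_real (N D : ℂ[X]) (hD : D ≠ 0)
    (h : ∀ᵐ w : ℂ, ∃ a : ℝ, N.eval w = (a : ℂ) * D.eval w) : ∃ a : ℝ, N = C (a : ℂ) * D := by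
  set U : Set ℂ := {w | D.eval w ≠ 0} with hU
  have hUc : U = (((D.roots.toFinset : Finset ℂ) : Set ℂ))ᶜ := by
    ext w
    simp [hU, hD, IsRoot]
  have hUo : IsOpen U := by
    rw [hUc]
    exact (Finset.finite_toSet _).isClosed.isOpen_compl
  have hUconn : IsConnected U := by
    rw [hUc]
    exact (Finset.countable_toSet _).isConnected_compl_of_one_lt_rank (by simp)
  have hUinf : U.Infinite := by
    rw [hUc]
    exact (Finset.finite_toSet _).infinite_compl
  set g : ℂ → ℂ := fun w => N.eval w / D.eval w with hg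
  have hgd : DifferentiableOn ℂ g U := fun w hw =>
    ((N.differentiable w).div (D.differentiable w) hw).differentiableWithinAt
  have hga : AnalyticOnNhd ℂ g U := hgd.analyticOnNhd hUo
  have him : ∀ w ∈ U, (g w).im = 0 := by
    have hc : ContinuousOn (fun w => (g w).im) U :=
      Complex.continuous_im.comp_continuousOn hgd.continuousOn
    have ho : IsOpen (U ∩ (fun w => (g w).im) ⁻¹' {0}ᶜ) :=
      hc.isOpen_inter_preimage hUo isOpen_compl_singleton
    have h0 : volume (U ∩ (fun w => (g w).im) ⁻¹' {0}ᶜ) = 0 := by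
      rw [measure_eq_zero_iff_ae_notMem]
      filter_upwards [h] with w hw hw2
      obtain ⟨a, ha⟩ := hw
      apply hw2.2
      have h1 : g w = (a : ℂ) := by
        show N.eval w / D.eval w = _
        rw [ha, mul_div_assoc, div_self hw2.1, mul_one]
      show (g w).im = 0
      rw [h1, Complex.ofReal_im]
    have he := ho.eq_empty_of_measure_zero h0
    intro w hw
    by_contra hne
    have : w ∈ (U ∩ (fun w => (g w).im) ⁻¹' {0}ᶜ) := ⟨hw, hne⟩
    rw [he] at this
    exact this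
  obtain ⟨w₀, hw₀⟩ := hUconn.nonempty
  rcases hga.is_constant_or_isOpen hUconn.isPreconnected with h1 | h1
  · obtain ⟨c, hc⟩ := h1
    refine ⟨c.re, ?_⟩
    have hcr : ((c.re : ℝ) : ℂ) = c := by
      apply Complex.ext
      · rw [Complex.ofReal_re]
      · rw [Complex.ofReal_im, ← hc w₀ hw₀, him w₀ hw₀]
    apply Polynomial.eq_of_infinite_eval_eq
    refine hUinf.mono ?_
    intro w hw
    show N.eval w = (C ((c.re : ℝ) : ℂ) * D).eval w
    rw [eval_mul, eval_C, hcr, ← hc w hw]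
    show _ = N.eval w / D.eval w * D.eval w
    rw [div_mul_cancel₀ _ hw]
  · exfalso
    have h2 := h1 U subset_rfl hUo
    rw [Metric.isOpen_iff] at h2
    obtain ⟨ε, hε, h3⟩ := h2 (g w₀) ⟨w₀, hw₀, rfl⟩
    have h4 : g w₀ + ((ε / 2 : ℝ) : ℂ) * Complex.I ∈ ball (g w₀) ε := by
      rw [mem_ball, dist_eq_norm, add_sub_cancel_left, norm_mul, Complex.norm_I, mul_one,
        Complex.norm_real, Real.norm_eq_abs, abs_of_pos (by linarith)]
      linarith
    obtain ⟨w, hw, h5⟩ := h3 h4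
    have h6 := him w hw
    rw [h5] at h6
    simp only [Complex.add_im, Complex.mul_im, Complex.ofReal_re, Complex.I_im, mul_one,
      Complex.ofReal_im, Complex.I_re, mul_zero, add_zero, him w₀ hw₀, zero_add] at h6
    linarith

theorem gen {d : ℕ} (x : CV d) (H : ℂ → ℂ) (K : ℝ) (A B : ℂ[X]) (k : ℕ) (hQ : pol x 1 ≠ 0)
    (hH : Fix x H K) (hE : Equ x H) (hA : A ≠ 0) (hB : B ≠ 0)
    (hk : B.natDegree = A.natDegree + 3 + k) (hHAB : ∀ᵐ z : ℂ, H z = A.eval z / B.eval z) :
    ∀ᵐ w : ℂ, ∃ a : ℝ, (A * pol x 1 * hm B (pol x 0) (pol x 1) B.natDegree).eval w = (a : ℂ) *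
      (Wp (pol x 0) (pol x 1) ^ 2 * pol x 1 ^ k * hm A (pol x 0) (pol x 1) A.natDegree * B).eval w ∧
      (Wp (pol x 0) (pol x 1) ^ 2 * pol x 1 ^ k * hm A (pol x 0) (pol x 1) A.natDegree * B).eval w
        ≠ 0 := by
  have h1 : ∀ᵐ w : ℂ, H (pf x w) = A.eval (pf x w) / B.eval (pf x w) := by
    set S : Set ℂ := {z | ¬ H z = A.eval z / B.eval z} with hS
    have hS0 : volume S = 0 := ae_iff.1 hHAB
    set N := toMeasurable volume S with hN
    have hN0 : volume N = 0 := by rw [hN, measure_toMeasurable, hS0]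
    have h2 := hE.2 1 N (measurableSet_toMeasurable _ _)
    rw [setLIntegral_measure_zero _ _ hN0, lintegral_eq_zero_iff hH.meas.enorm] at h2
    have hm0 : MeasurableSet {w : ℂ | ‖H w‖ₑ = (0 : ℂ → ENNReal) w} :=
      measurableSet_eq_fun hH.meas.enorm measurable_const
    have h3 := (ae_restrict_iff hm0).1 h2
    filter_upwards [h3, hHAB, ae_eval A hA, ae_eval B hB] with w h3 h4 h5 h6
    by_contra h7
    have h8 : w ∈ (pf x)^[1] ⁻¹' N := by
      show (pf x)^[1] w ∈ N
      rw [Function.iterate_one]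
      exact subset_toMeasurable _ _ h7
    have h9 : H w = 0 := by
      have := h3 h8
      exact enorm_eq_zero.1 this
    rw [h4] at h9
    exact div_ne_zero h5 h6 h9
  filter_upwards [h1, hHAB, ae_eval A hA, ae_eval B hB, ae_eval (pol x 1) hQ, hE.1 1] with
    w h1 h2 h3 h4 h5 h6
  obtain ⟨a, -, -, -, h7⟩ := h6
  rw [Function.iterate_one] at h7
  have hder : deriv (pf x) w = (Wp (pol x 0) (pol x 1)).eval w / (pol x 1).eval w ^ 2 := by
    have h8 := (((pol x 0).hasDerivAt w).fun_div ((pol x 1).hasDerivAt w) h5).deriv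
    have h9 : (Wp (pol x 0) (pol x 1)).eval w = (derivative (pol x 0)).eval w * (pol x 1).eval w -
        (pol x 0).eval w * (derivative (pol x 1)).eval w := by
      rw [Wp, eval_sub, eval_mul, eval_mul]
    rw [h9]
    exact h8
  have hHw : H w ≠ 0 := by
    rw [h2]
    exact div_ne_zero h3 h4
  have hHf : H (pf x w) ≠ 0 := by
    intro h0
    apply hHw
    rw [h7, h0, mul_zero]
  have hAf : A.eval (pf x w) ≠ 0 := by
    intro h0
    apply hHf
    rw [h1, h0, zero_div]
  have hBf : B.eval (pf x w) ≠ 0 := by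
    intro h0
    apply hHf
    rw [h1, h0, div_zero]
  have hWw : (Wp (pol x 0) (pol x 1)).eval w ≠ 0 := by
    intro h0
    apply hHw
    rw [h7, hder, h0, zero_div]
    ring
  have e1 : (hm A (pol x 0) (pol x 1) A.natDegree).eval w =
      A.eval (pf x w) * (pol x 1).eval w ^ A.natDegree := hm_eval A _ _ _ le_rfl w h5
  have e2 : (hm B (pol x 0) (pol x 1) B.natDegree).eval w =
      B.eval (pf x w) * (pol x 1).eval w ^ B.natDegree := hm_eval B _ _ _ le_rfl w h5
  refine ⟨a, ?_, ?_⟩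
  · rw [eval_mul, eval_mul, eval_mul, eval_mul, eval_mul, eval_pow, eval_pow, e1, e2]
    rw [h1, h2, hder, div_pow] at h7
    have h8 : A.eval w * B.eval (pf x w) * (pol x 1).eval w ^ 4 =
        a * (Wp (pol x 0) (pol x 1)).eval w ^ 2 * A.eval (pf x w) * B.eval w := by
      rw [← pow_mul] at h7
      field_simp at h7
      linear_combination h7
    rw [hk]
    have h9 : (pol x 1).eval w ^ (A.natDegree + 3 + k) =
        (pol x 1).eval w ^ A.natDegree * (pol x 1).eval w ^ 3 * (pol x 1).eval w ^ k := by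
      rw [pow_add, pow_add]
    rw [h9]
    linear_combination (pol x 1).eval w ^ A.natDegree * (pol x 1).eval w ^ k * h8
  · rw [eval_mul, eval_mul, eval_mul, eval_pow, eval_pow, e1]
    exact mul_ne_zero (mul_ne_zero (mul_ne_zero (pow_ne_zero _ hWw) (pow_ne_zero _ h5))
      (mul_ne_zero hAf (pow_ne_zero _ h5))) h4

end Part3

section Part4

open Topology Filter Metric Set MeasureTheory Polynomial

open Pool.Agent.H211.HY Pool.Agent.H790R3.RB

theorem scale {d : ℕ} (x : CV d) (H : ℂ → ℂ) (K : ℝ) (A B : ℂ[X]) (k : ℕ) (hd : 2 ≤ d)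
    (hx : ND x) (hH : Fix x H K) (hA : A ≠ 0) (hB : B ≠ 0)
    (hk : B.natDegree = A.natDegree + 3 + k) (hHAB : ∀ᵐ z : ℂ, H z = A.eval z / B.eval z) (a : ℝ)
    (hN : A * pol x 1 * hm B (pol x 0) (pol x 1) B.natDegree = C (a : ℂ) *
      (Wp (pol x 0) (pol x 1) ^ 2 * pol x 1 ^ k * hm A (pol x 0) (pol x 1) A.natDegree * B))
    (hD : Wp (pol x 0) (pol x 1) ^ 2 * pol x 1 ^ k * hm A (pol x 0) (pol x 1) A.natDegree * B ≠ 0) :
    (d : ℂ) * (a : ℂ) = 1 := by
  have hcop := (PQ.part1 (by omega) x hx).1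
  have hdeg := (PQ.part1 (by omega) x hx).2
  set P := pol x 0 with hP
  set Q := pol x 1 with hQ
  set D₀ := Wp P Q ^ 2 * Q ^ k * hm A P Q A.natDegree * B with hD₀
  -- the bad set
  set Bad : Set ℂ := {w | Q.eval w ≠ 0 ∧ ¬ (H w = A.eval w / B.eval w ∧ D₀.eval w ≠ 0)} with hBad
  have hBad0 : volume Bad = 0 := by
    rw [measure_eq_zero_iff_ae_notMem]
    filter_upwards [hHAB, ae_eval D₀ hD] with w h1 h2 h3
    exact h3.2 ⟨h1, h2⟩
  have hdiff : DifferentiableOn ℝ (pf x) Bad := by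
    intro w hw
    have h1 : DifferentiableAt ℂ (pf x) w := (P.differentiable w).div (Q.differentiable w) hw.1
    exact (h1.restrictScalars ℝ).differentiableWithinAt
  have himg : volume (pf x '' Bad) = 0 :=
    addHaar_image_eq_zero_of_differentiableOn_of_addHaar_eq_zero volume hdiff hBad0
  rw [measure_eq_zero_iff_ae_notMem] at himg
  have hE : (C (P.coeff d) - C (Q.coeff d) * X : ℂ[X]) ≠ 0 := by
    intro h0
    have h1 := congrArg (fun p : ℂ[X] => p.coeff 0) h0
    have h2 := congrArg (fun p : ℂ[X] => p.coeff 1) h0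
    simp only [coeff_sub, coeff_C_zero, mul_coeff_zero, coeff_X_zero, mul_zero, sub_zero,
      coeff_zero] at h1
    simp only [coeff_sub, coeff_C_succ, coeff_C_mul, coeff_X_one, mul_one, zero_sub, coeff_zero,
      neg_eq_zero] at h2
    rcases max_choice P.natDegree Q.natDegree with h3 | h3
    · rw [hdeg] at h3
      have h4 : P.leadingCoeff = 0 := by rw [leadingCoeff, ← h3, h1]
      rw [leadingCoeff_eq_zero] at h4
      rw [h4, natDegree_zero] at h3
      omega
    · rw [hdeg] at h3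
      have h4 : Q.leadingCoeff = 0 := by rw [leadingCoeff, ← h3, h2]
      rw [leadingCoeff_eq_zero] at h4
      rw [h4, natDegree_zero] at h3
      omega
  obtain ⟨z, hz1, hz2, hz3, hz4, hz5, hz6⟩ := (himg.and (hHAB.and ((ae_eval A hA).and
    ((ae_eval B hB).and ((ae_eval _ hE).and hH.inv))))).exists
  rw [eval_sub, eval_C, eval_mul, eval_C, eval_X] at hz5
  set R := P - C z * Q with hR
  have hPd : P.natDegree ≤ d := PQ.pol_natDegree x 0
  have hQd : Q.natDegree ≤ d := PQ.pol_natDegree x 1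
  have hRc : R.coeff d ≠ 0 := by
    rw [hR, coeff_sub, coeff_C_mul, mul_comm z]
    exact hz5
  have hRd : R.natDegree = d := by
    apply le_antisymm _ (le_natDegree_of_ne_zero hRc)
    refine (natDegree_sub_le _ _).trans (max_le hPd ?_)
    exact (natDegree_C_mul_le _ _).trans hQd
  have hR0 : R ≠ 0 := by
    intro h0
    apply hRc
    rw [h0, coeff_zero]
  -- facts about the preimages
  have hroot : ∀ w ∈ R.roots, Q.eval w ≠ 0 ∧ P.eval w / Q.eval w = z ∧
      H w = A.eval w / B.eval w ∧ D₀.eval w ≠ 0 := by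
    intro w hw
    rw [mem_roots hR0, IsRoot, hR, eval_sub, eval_mul, eval_C, sub_eq_zero] at hw
    have h1 : Q.eval w ≠ 0 := by
      intro h0
      rw [h0, mul_zero] at hw
      rcases (cop_iff P Q).1 hcop w with h2 | h2
      · exact h2 hw
      · exact h2 h0
    have h2 : P.eval w / Q.eval w = z := by rw [hw, mul_div_assoc, div_self h1, mul_one]
    have h3 : w ∉ Bad := fun hb => hz1 ⟨w, hb, h2⟩
    have h4 : H w = A.eval w / B.eval w ∧ D₀.eval w ≠ 0 := by
      by_contra h5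
      exact h3 ⟨h1, h5⟩
    exact ⟨h1, h2, h4.1, h4.2⟩
  have hD' : ∀ w, D₀.eval w = (Wp P Q).eval w ^ 2 * Q.eval w ^ k *
      (hm A P Q A.natDegree).eval w * B.eval w := by
    intro w
    rw [hD₀, eval_mul, eval_mul, eval_mul, eval_pow, eval_pow]
  have hnd : R.roots.Nodup := by
    rw [Multiset.nodup_iff_count_le_one]
    intro w
    rw [count_roots]
    by_contra h1
    rw [not_le, one_lt_rootMultiplicity_iff_isRoot hR0] at h1
    have h2 := hroot w ((mem_roots hR0).2 h1.1)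
    have h3 : (Wp P Q).eval w ≠ 0 := by
      intro h0
      apply h2.2.2.2
      rw [hD', h0]
      ring
    apply h3
    have h4 : (derivative P).eval w = z * (derivative Q).eval w := by
      have h5 := h1.2
      rw [IsRoot, hR, derivative_sub, derivative_C_mul, eval_sub, eval_mul, eval_C,
        sub_eq_zero] at h5
      exact h5
    have h5 : P.eval w = z * Q.eval w := by
      have h6 := h1.1
      rwa [IsRoot, hR, eval_sub, eval_mul, eval_C, sub_eq_zero] at h6
    rw [Wp, eval_sub, eval_mul, eval_mul, h4, h5]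
    ring
  have hcard : R.roots.toFinset.card = d := by
    rw [Multiset.toFinset_card_of_nodup hnd, IsAlgClosed.card_roots_eq_natDegree, hRd]
  have hterm : ∀ w ∈ R.roots.toFinset, Q.eval w ^ 4 / (Wp P Q).eval w ^ 2 * H w =
      (a : ℂ) * (A.eval z / B.eval z) := by
    intro w hw
    obtain ⟨h1, h2, h3, h4⟩ := hroot w (Multiset.mem_toFinset.1 hw)
    rw [hD'] at h4
    have h5 : (Wp P Q).eval w ≠ 0 := by
      intro h0
      apply h4
      rw [h0]
      ring
    have h6 : B.eval w ≠ 0 := by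
      intro h0
      apply h4
      rw [h0, mul_zero]
    have h7 := congrArg (fun p : ℂ[X] => p.eval w) hN
    simp only [eval_mul, eval_C] at h7
    rw [hm_eval B P Q _ le_rfl w h1, h2, hD', hm_eval A P Q _ le_rfl w h1, h2, hk] at h7
    have h9 : Q.eval w ^ (A.natDegree + 3 + k) =
        Q.eval w ^ A.natDegree * Q.eval w ^ 3 * Q.eval w ^ k := by
      rw [pow_add, pow_add]
    rw [h9] at h7
    have h10 : A.eval w * B.eval z * Q.eval w ^ 4 =
        a * (Wp P Q).eval w ^ 2 * A.eval z * B.eval w := by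
      have h11 : Q.eval w ^ A.natDegree * Q.eval w ^ k ≠ 0 :=
        mul_ne_zero (pow_ne_zero _ h1) (pow_ne_zero _ h1)
      apply mul_left_cancel₀ h11
      linear_combination h7
    rw [h3]
    field_simp
    linear_combination h10
  have hsum := hz6
  rw [Finset.sum_congr rfl hterm, Finset.sum_const, hcard, nsmul_eq_mul, hz2] at hsum
  have hne : A.eval z / B.eval z ≠ 0 := div_ne_zero hz3 hz4
  apply mul_right_cancel₀ hne
  rw [one_mul]
  calc (d : ℂ) * (a : ℂ) * (A.eval z / B.eval z) = (d : ℂ) * ((a : ℂ) * (A.eval z / B.eval z)) := by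
        ring
    _ = _ := hsum.symm

theorem t_ALG : S_ALG := by
  intro d x H K A B hd hx _ hH hE hAB hA hdegs hHAB
  obtain ⟨k, hk⟩ : ∃ k, B.natDegree = A.natDegree + 3 + k := ⟨B.natDegree - (A.natDegree + 3), by omega⟩
  have hB : B ≠ 0 := by
    rintro rfl
    rw [natDegree_zero] at hdegs
    omega
  have hcop := (PQ.part1 (by omega) x hx).1
  have hdeg := (PQ.part1 (by omega) x hx).2
  have hQ : pol x 1 ≠ 0 := by
    intro h0
    rw [h0] at hcop hdeg
    have h2 : (pol x 0).natDegree = 0 := natDegree_eq_zero_of_isUnit (isCoprime_zero_right.1 hcop)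
    rw [h2, natDegree_zero, max_self] at hdeg
    omega
  have hgen := gen x H K A B k hQ hH hE hA hB hk hHAB
  have hD : Wp (pol x 0) (pol x 1) ^ 2 * pol x 1 ^ k *
      hm A (pol x 0) (pol x 1) A.natDegree * B ≠ 0 := by
    obtain ⟨w, a, -, hw⟩ := hgen.exists
    intro h0
    apply hw
    rw [h0, eval_zero]
  obtain ⟨a, ha⟩ := const_of_real (A * pol x 1 * hm B (pol x 0) (pol x 1) B.natDegree)
    (Wp (pol x 0) (pol x 1) ^ 2 * pol x 1 ^ k * hm A (pol x 0) (pol x 1) A.natDegree * B) hD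
    (hgen.mono fun w hw => ⟨hw.choose, hw.choose_spec.1⟩)
  have hda := scale x H K A B k hd hx hH hA hB hk hHAB a ha hD
  have hd0 : (d : ℂ) ≠ 0 := Nat.cast_ne_zero.2 (by omega)
  have hid : C (d : ℂ) * (A * pol x 1 * hm B (pol x 0) (pol x 1) B.natDegree) =
      Wp (pol x 0) (pol x 1) ^ 2 * pol x 1 ^ k * hm A (pol x 0) (pol x 1) A.natDegree * B := by
    rw [ha, ← mul_assoc, ← C_mul, hda, C_1, one_mul]
  obtain ⟨hα, hk1⟩ := key (pol x 0) (pol x 1) A B d k hd hcop hdeg (Wp_deg x hd) hAB hA hk d hd0 hid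
  rw [hα, Nat.zero_add] at hk
  apply lat_of x hd B hB k hk hk1 hQ
  have hA0 : A = C (A.coeff 0) := eq_C_of_natDegree_eq_zero hα
  have hA1 : hm A (pol x 0) (pol x 1) A.natDegree = A := by
    rw [hα]
    unfold hm
    rw [zero_add, Finset.sum_range_one, pow_zero, Nat.sub_zero, pow_zero, mul_one, mul_one]
    exact hA0.symm
  rw [hA1] at hid
  apply mul_left_cancel₀ hA
  linear_combination hid

end Part4

end Pool.Agent.H335.HY211
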